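import Pool.Agent.MP_9e8696_an.H68.Defs
import Pool.Agent.MP_9e8696_an.H67.Final

/-!
From coefficient tensors to functions on one cube with a partition of the coordinates.
-/

namespace Pool.Agent.MP_9e8696_an.H68

open Finset

section
variable {n d : ℕ} (blk : Fin n → Fin d)

/-- `S` has exactly one coordinate in every block. -/
def Tr (S : Finset (Fin n)) : Prop := ∀ k, (S.filter fun i => blk i = k).card = 1

instance (S : Finset (Fin n)) : Decidable (Tr blk S) := by
  unfold Tr
  infer_instance

lemma inj_of_cons {T : Fin d → Fin n} (h : ∀ k, blk (T k) = k) : Function.Injective T :=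
  fun k l hkl => by rw [← h k, hkl, h l]

lemma sum_cons (G : Finset (Fin n) → ℝ) :
    ∑ T : Fin d → Fin n, (if ∀ k, blk (T k) = k then G (univ.image T) else 0) =
      ∑ S, if Tr blk S then G S else 0 := by
  rw [← sum_filter, ← sum_filter]
  refine sum_bij (fun T _ => univ.image T) ?_ ?_ ?_ fun _ _ => rfl
  · intro T hT
    simp only [mem_filter, mem_univ, true_and] at hT ⊢
    intro k
    rw [card_eq_one]
    refine ⟨T k, ?_⟩
    ext i
    simp only [mem_filter, mem_image, mem_univ, true_and, mem_singleton]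
    constructor
    · rintro ⟨⟨l, rfl⟩, hl⟩
      rw [hT l] at hl
      rw [hl]
    · rintro rfl
      exact ⟨⟨k, rfl⟩, hT k⟩
  · intro T hT T' hT' h
    simp only [mem_filter, mem_univ, true_and] at hT hT'
    funext k
    have h1 : T k ∈ univ.image T' := h ▸ mem_image_of_mem T (mem_univ k)
    obtain ⟨l, -, hl⟩ := mem_image.1 h1
    have h2 : l = k := by rw [← hT' l, hl, hT k]
    rw [← hl, h2]
  · intro S hS
    simp only [mem_filter, mem_univ, true_and] at hS
    choose T hT using fun k => card_eq_one.1 (hS k)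
    have h1 : ∀ k, T k ∈ S ∧ blk (T k) = k := fun k =>
      mem_filter.1 (hT k ▸ mem_singleton_self (T k) : T k ∈ S.filter fun i => blk i = k)
    refine ⟨T, by simpa using fun k => (h1 k).2, ?_⟩
    ext i
    simp only [mem_image, mem_univ, true_and]
    constructor
    · rintro ⟨k, rfl⟩
      exact (h1 k).1
    · intro hi
      have h2 : i ∈ S.filter fun j => blk j = blk i := mem_filter.2 ⟨hi, rfl⟩
      rw [hT, mem_singleton] at h2
      exact ⟨blk i, h2.symm⟩

lemma sum_gauge (S : Finset (Fin n)) (hS : S.card ≤ d) :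
    ∑ σ : Fin d → Bool, (∏ k, H67.sg (σ k)) * ∏ i ∈ S, H67.sg (σ (blk i)) =
      if Tr blk S then 2 ^ d else 0 := by
  have h1 : ∀ σ : Fin d → Bool, (∏ k, H67.sg (σ k)) * ∏ i ∈ S, H67.sg (σ (blk i)) =
      ∏ k, H67.sg (σ k) ^ ((S.filter fun i => blk i = k).card + 1) := by
    intro σ
    rw [← prod_fiberwise' S blk (fun k => H67.sg (σ k)), ← prod_mul_distrib]
    refine prod_congr rfl fun k _ => ?_
    rw [prod_const, pow_succ, mul_comm]
  simp only [h1]
  rw [← Fintype.prod_sum (fun k b => H67.sg b ^ ((S.filter fun i => blk i = k).card + 1))]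
  simp only [Fintype.sum_bool, H67.sg, if_true, Bool.false_eq_true, if_false, one_pow]
  split_ifs with h
  · have h2 : ∀ k, (-1 : ℝ) ^ ((S.filter fun i => blk i = k).card + 1) + 1 = 2 := by
      intro k
      rw [h k]
      norm_num
    simp only [h2, prod_const, card_univ, Fintype.card_fin]
  · by_contra hne
    apply h
    have h3 : ∀ k, 1 ≤ (S.filter fun i => blk i = k).card := by
      intro k
      by_contra h4
      have h5 : (S.filter fun i => blk i = k).card = 0 := by omega
      refine hne (prod_eq_zero (mem_univ k) ?_)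
      rw [h5]
      norm_num
    have h6 : ∑ k, (S.filter fun i => blk i = k).card = S.card :=
      (card_eq_sum_card_fiberwise fun i _ => mem_univ (blk i)).symm
    have h7 : ∑ _k : Fin d, 1 = ∑ k, (S.filter fun i => blk i = k).card := by
      refine le_antisymm (sum_le_sum fun k _ => h3 k) ?_
      rw [h6]
      simpa using hS
    intro k
    exact ((sum_eq_sum_iff_of_le fun k _ => h3 k).1 h7 k (mem_univ k)).symm

end

theorem bridge (h : TensorAA) : ∃ C₁ C₂ : ℝ, 0 < C₁ ∧ 0 < C₂ ∧ ∀ n d : ℕ, 1 ≤ n → 1 ≤ d →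
    ∀ (f : (Fin n → Bool) → ℝ) (blk : Fin n → Fin d), (∀ x, |f x| ≤ 1) →
      (∀ S : Finset (Fin n), d < S.card → H67.fc f S = 0) →
      ∃ j, C₁ * ((∑ S, if Tr blk S then H67.fc f S ^ 2 else 0) / d) ^ C₂ ≤
        H67.inf (H67.fc f) j := by
  obtain ⟨C₁, C₂, h1, h2, h3⟩ := h
  refine ⟨C₁, C₂, h1, h2, fun n d hn hd f blk hf hdeg => ?_⟩
  have : Nonempty (Fin n) := ⟨⟨0, hn⟩⟩
  set a := H67.fc f with ha
  set c : (Fin d → Fin n) → ℝ :=
    fun T => if ∀ k, blk (T k) = k then a (univ.image T) else 0 with hc
  have hb : ∀ x, |bml c x| ≤ 1 := by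
    intro x
    set y : Fin n → Bool := fun i => !x (blk i) i with hy
    have e1 : bml c x = ∑ S, if Tr blk S then a S * ∏ i ∈ S, H67.sg (y i) else 0 := by
      rw [← sum_cons blk fun S => a S * ∏ i ∈ S, H67.sg (y i)]
      unfold bml
      refine sum_congr rfl fun T _ => ?_
      simp only [hc]
      split_ifs with hT
      · rw [prod_image fun k _ l _ hkl => inj_of_cons blk hT hkl]
        congr 1
        refine prod_congr rfl fun k _ => ?_
        simp only [hy, hT k]
        cases x k (T k) <;> simp [sg, H67.sg]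
      · simp
    have e2 : ∑ σ : Fin d → Bool, (∏ k, H67.sg (σ k)) * f (fun i => xor (σ (blk i)) (y i)) =
        2 ^ d * bml c x := by
      have e3 : ∀ σ : Fin d → Bool, f (fun i => xor (σ (blk i)) (y i)) =
          ∑ S, (a S * ∏ i ∈ S, H67.sg (y i)) * ∏ i ∈ S, H67.sg (σ (blk i)) := by
        intro σ
        rw [← H67.F_fc f, H67.F]
        refine sum_congr rfl fun S _ => ?_
        rw [mul_assoc, ← prod_mul_distrib]
        congr 1
        refine prod_congr rfl fun i _ => ?_
        cases σ (blk i) <;> cases y i <;> simp [H67.sg]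
      simp only [e3, mul_sum]
      rw [sum_comm, e1, mul_sum]
      refine sum_congr rfl fun S _ => ?_
      have e4 : ∑ σ : Fin d → Bool, (∏ k, H67.sg (σ k)) *
          ((a S * ∏ i ∈ S, H67.sg (y i)) * ∏ i ∈ S, H67.sg (σ (blk i))) =
          (a S * ∏ i ∈ S, H67.sg (y i)) *
            ∑ σ : Fin d → Bool, (∏ k, H67.sg (σ k)) * ∏ i ∈ S, H67.sg (σ (blk i)) := by
        rw [mul_sum]
        exact sum_congr rfl fun σ _ => by ring
      rw [e4]
      rcases lt_or_ge d S.card with hS | hS
      · rw [hdeg S hS]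
        simp
      · rw [sum_gauge blk S hS]
        split_ifs <;> ring
    have e5 : |∑ σ : Fin d → Bool, (∏ k, H67.sg (σ k)) * f (fun i => xor (σ (blk i)) (y i))| ≤
        2 ^ d := by
      refine (abs_sum_le_sum_abs _ _).trans ?_
      have e6 : ∀ σ : Fin d → Bool,
          |(∏ k, H67.sg (σ k)) * f (fun i => xor (σ (blk i)) (y i))| ≤ 1 := by
        intro σ
        have e7 : |∏ k, H67.sg (σ k)| = 1 := by
          rw [abs_prod]
          exact prod_eq_one fun k _ => by cases σ k <;> simp [H67.sg]
        rw [abs_mul, e7, one_mul]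
        exact hf _
      refine (sum_le_sum fun σ _ => e6 σ).trans ?_
      simp
    rw [e2, abs_mul, abs_of_pos (by positivity : (0 : ℝ) < 2 ^ d)] at e5
    exact (mul_le_iff_le_one_right (by positivity)).1 e5
  obtain ⟨k, j, hkj⟩ := h3 (Fin n) d hd c hb
  refine ⟨j, ?_⟩
  have w1 : ∑ T, c T ^ 2 = ∑ S, if Tr blk S then a S ^ 2 else 0 := by
    rw [← sum_cons blk fun S => a S ^ 2]
    refine sum_congr rfl fun T _ => ?_
    simp only [hc]
    split_ifs <;> simp
  rw [w1] at hkj
  refine hkj.trans ?_
  rw [H67.inf_eq]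
  calc infl c k j
      ≤ ∑ T : Fin d → Fin n, if ∀ k, blk (T k) = k then
          (fun S : Finset (Fin n) => if j ∈ S then a S ^ 2 else 0) (univ.image T) else 0 := by
        refine sum_le_sum fun T _ => ?_
        simp only [hc]
        by_cases hT : ∀ k, blk (T k) = k
        · simp only [hT, implies_true, if_true]
          by_cases hj : T k = j
          · rw [if_pos hj, if_pos (hj ▸ mem_image_of_mem T (mem_univ k))]
          · rw [if_neg hj]
            split_ifs
            · exact sq_nonneg _
            · exact le_rfl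
        · simp [hT]
    _ = ∑ S, if Tr blk S then (if j ∈ S then a S ^ 2 else 0) else 0 :=
        sum_cons blk fun S : Finset (Fin n) => if j ∈ S then a S ^ 2 else 0
    _ ≤ _ := by
        refine sum_le_sum fun S _ => ?_
        split_ifs
        · exact le_rfl
        · exact le_rfl
        · exact sq_nonneg _
        · exact le_rfl

end Pool.Agent.MP_9e8696_an.H68
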