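import Pool.Agent.MP_9e8696_an.H68.Kkt

/-!
The crude step: revealing one block keeps a third of the potential.
-/

namespace Pool.Agent.MP_9e8696_an.H68

open Finset

lemma sg_not (b : Bool) : sg (!b) = -sg b := by cases b <;> simp [sg]

lemma sg_sq (b : Bool) : sg b ^ 2 = 1 := by cases b <;> simp [sg]

lemma sg_mul_self (b : Bool) : sg b * sg b = 1 := by cases b <;> simp [sg]

lemma abs_sg (b : Bool) : |sg b| = 1 := by cases b <;> simp [sg]

/-- Hoelder's inequality in the form used when names are merged. -/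
lemma holder {ι : Type} (s : Finset ι) {e : ℝ} (he : 0 < e) (he1 : e < 1) {q p : ι → ℝ}
    (hq : ∀ j ∈ s, 0 ≤ q j) (hp : ∀ j ∈ s, 0 ≤ p j) :
    ∑ j ∈ s, q j ^ (1 - e) * p j ^ e ≤ (∑ j ∈ s, q j) ^ (1 - e) * (∑ j ∈ s, p j) ^ e := by
  have h1 : 0 < 1 - e := by linarith
  have hc : (1 - e)⁻¹.HolderConjugate e⁻¹ := Real.HolderConjugate.inv_inv h1 he (by ring)
  have h := Real.inner_le_Lp_mul_Lq_of_nonneg s hc (f := fun j => q j ^ (1 - e))
    (g := fun j => p j ^ e) (fun j hj => Real.rpow_nonneg (hq j hj) _)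
    (fun j hj => Real.rpow_nonneg (hp j hj) _)
  have e1 : ∑ j ∈ s, (q j ^ (1 - e)) ^ (1 - e)⁻¹ = ∑ j ∈ s, q j :=
    sum_congr rfl fun j hj => Real.rpow_rpow_inv (hq j hj) h1.ne'
  have e2 : ∑ j ∈ s, (p j ^ e) ^ e⁻¹ = ∑ j ∈ s, p j :=
    sum_congr rfl fun j hj => Real.rpow_rpow_inv (hp j hj) he.ne'
  rw [e1, e2] at h
  simpa using h

section moments
variable {ι : Type} [Fintype ι] [DecidableEq ι]

lemma sum_flip (i : ι) (F : (ι → Bool) → ℝ) :
    ∑ x, F x = ∑ x : ι → Bool, F (Function.update x i (!x i)) := by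
  have hinv : Function.Involutive fun x : ι → Bool => Function.update x i (!x i) := by
    intro x
    simp
  exact (Equiv.sum_comp hinv.toPerm F).symm

lemma moments_on (a : ι → ℝ) (s : Finset ι) :
    (∑ x : ι → Bool, (∑ j ∈ s, a j * sg (x j)) ^ 2 =
        Fintype.card (ι → Bool) * ∑ j ∈ s, a j ^ 2) ∧
      ∑ x : ι → Bool, (∑ j ∈ s, a j * sg (x j)) ^ 4 ≤
        Fintype.card (ι → Bool) * (3 * (∑ j ∈ s, a j ^ 2) ^ 2) := by
  induction s using Finset.induction_on with
  | empty => simp
  | insert i s hi ih =>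
    obtain ⟨ih2, ih4⟩ := ih
    have hfl : ∀ x : ι → Bool, ∑ j ∈ insert i s, a j * sg (Function.update x i (!x i) j) =
        -(a i * sg (x i)) + ∑ j ∈ s, a j * sg (x j) := by
      intro x
      rw [sum_insert hi, Function.update_self, sg_not, mul_neg]
      congr 1
      refine sum_congr rfl fun j hj => ?_
      rw [Function.update_of_ne (ne_of_mem_of_not_mem hj hi)]
    have key : ∀ m : ℕ, 2 * ∑ x : ι → Bool, (∑ j ∈ insert i s, a j * sg (x j)) ^ m =
        ∑ x : ι → Bool, ((a i * sg (x i) + ∑ j ∈ s, a j * sg (x j)) ^ m +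
          (-(a i * sg (x i)) + ∑ j ∈ s, a j * sg (x j)) ^ m) := by
      intro m
      rw [two_mul, sum_add_distrib]
      congr 1
      · exact sum_congr rfl fun x _ => by rw [sum_insert hi]
      · rw [sum_flip i]
        exact sum_congr rfl fun x _ => by rw [hfl]
    have k2 := key 2
    have k4 := key 4
    have r2 : ∀ x : ι → Bool, (a i * sg (x i) + ∑ j ∈ s, a j * sg (x j)) ^ 2 +
        (-(a i * sg (x i)) + ∑ j ∈ s, a j * sg (x j)) ^ 2 =
        2 * a i ^ 2 + 2 * (∑ j ∈ s, a j * sg (x j)) ^ 2 := by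
      intro x
      have h := sg_sq (x i)
      linear_combination 2 * a i ^ 2 * h
    have r4 : ∀ x : ι → Bool, (a i * sg (x i) + ∑ j ∈ s, a j * sg (x j)) ^ 4 +
        (-(a i * sg (x i)) + ∑ j ∈ s, a j * sg (x j)) ^ 4 =
        2 * a i ^ 4 + 12 * a i ^ 2 * (∑ j ∈ s, a j * sg (x j)) ^ 2 +
          2 * (∑ j ∈ s, a j * sg (x j)) ^ 4 := by
      intro x
      have h := sg_sq (x i)
      linear_combination (2 * a i ^ 4 * (sg (x i) ^ 2 + 1) +
        12 * a i ^ 2 * (∑ j ∈ s, a j * sg (x j)) ^ 2) * h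
    simp only [r2, sum_add_distrib, ← mul_sum, sum_const, card_univ, nsmul_eq_mul] at k2
    simp only [r4, sum_add_distrib, ← mul_sum, sum_const, card_univ, nsmul_eq_mul] at k4
    rw [sum_insert hi (f := fun j => a j ^ 2)]
    have hN : (0 : ℝ) ≤ Fintype.card (ι → Bool) := Nat.cast_nonneg _
    refine ⟨by rw [ih2] at k2; linarith, ?_⟩
    rw [ih2] at k4
    have h4 : 0 ≤ (Fintype.card (ι → Bool) : ℝ) * a i ^ 4 := by positivity
    nlinarith

end moments

section pair
variable {τ ι : Type} [Fintype τ] [Fintype ι]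

omit [Fintype τ] [Fintype ι] in
lemma prel_refl {rel : τ → τ → Prop} (S : τ × ι) : prel rel S S := Or.inr rfl

omit [Fintype τ] [Fintype ι] in
lemma prel_symm {rel : τ → τ → Prop} (hs : ∀ s t, rel s t → rel t s) (S T : τ × ι)
    (h : prel rel S T) : prel rel T S := h.imp (hs _ _) Eq.symm

omit [Fintype ι] in
lemma uni_nonneg (rel : τ → τ → Prop) {v : τ × ι → ℝ} (hv : ∀ S, 0 ≤ v S) (S : τ × ι) :
    0 ≤ uni rel v S := by
  unfold uni
  refine sum_nonneg fun T _ => ?_
  split_ifs
  · exact le_rfl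
  · exact hv _

/-- The level before the reveal is the label level plus the unique collisions. -/
lemma lev_prel (rel : τ → τ → Prop) (p : τ × ι → ℝ) (S : τ × ι) :
    lev (prel rel) p S = lev rel (fun t => ∑ j, p (t, j)) S.1 + uni rel p S := by
  classical
  unfold lev uni
  rw [Fintype.sum_prod_type, ← sum_add_distrib]
  refine sum_congr rfl fun t _ => ?_
  by_cases h : rel S.1 t
  · simp [prel, h]
  · simp [prel, h]

end pair

theorem crude {e : ℝ} (he : 0 < e) (he1 : e < 1) {τ ι : Type} [Fintype τ] [Fintype ι]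
    [DecidableEq ι] (rel : τ → τ → Prop) (a : τ × ι → ℝ) {p : τ × ι → ℝ} (hp : ∀ S, 0 ≤ p S) :
    ∃ (x : ι → Bool) (p' : τ → ℝ), (∀ s, 0 ≤ p' s) ∧
      Psi e (prel rel) (fun S => a S ^ 2) p / 3 ≤ Psi e rel (fun s => lin a x s ^ 2) p' := by
  classical
  set N : ℝ := (Fintype.card (ι → Bool) : ℝ) with hN
  have hNpos : 0 < N := by
    rw [hN]
    exact_mod_cast Fintype.card_pos
  set n : τ → ℝ := fun s => ∑ j, a (s, j) ^ 2 with hn
  set P : τ → ℝ := fun s => ∑ j, p (s, j) with hP
  have hn0 : ∀ s, 0 ≤ n s := fun s => sum_nonneg fun j _ => sq_nonneg _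
  have hP0 : ∀ s, 0 ≤ P s := fun s => sum_nonneg fun j _ => hp _
  set u : (ι → Bool) → τ → ℝ := fun x s => lin a x s ^ 2 / n s with hu
  have hu0 : ∀ x s, 0 ≤ u x s := fun x s => div_nonneg (sq_nonneg _) (hn0 s)
  have m2 : ∀ s, ∑ x, lin a x s ^ 2 = N * n s := fun s =>
    (moments_on (fun j => a (s, j)) univ).1
  have m4 : ∀ s, ∑ x, lin a x s ^ 4 ≤ N * (3 * n s ^ 2) := fun s =>
    (moments_on (fun j => a (s, j)) univ).2
  have u2 : ∀ s, ∑ x, u x s ^ 2 ≤ 3 * N := by
    intro s
    rcases (hn0 s).eq_or_lt with h | h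
    · simp only [hu, ← h, div_zero]
      simp
      positivity
    · have : ∀ x, u x s ^ 2 = lin a x s ^ 4 / n s ^ 2 := fun x => by
        simp only [hu]
        ring
      simp only [this]
      rw [← sum_div, div_le_iff₀ (by positivity)]
      nlinarith [m4 s]
  have uu : ∀ s t, ∑ x, u x s * u x t ≤ 3 * N := by
    intro s t
    have : ∑ x, u x s * u x t ≤ ∑ x, (u x s ^ 2 + u x t ^ 2) / 2 :=
      sum_le_sum fun x _ => by nlinarith [sq_nonneg (u x s - u x t)]
    rw [← sum_div, sum_add_distrib] at this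
    linarith [u2 s, u2 t]
  set p' : (ι → Bool) → τ → ℝ := fun x s => P s * u x s / 3 with hp'
  have hp'0 : ∀ x s, 0 ≤ p' x s := fun x s => by
    have := hP0 s
    have := hu0 x s
    simp only [hp']
    positivity
  -- one label
  have lab : ∀ s, N * ((∑ j, val e (prel rel) (fun S => a S ^ 2) p (s, j)) / 3) ≤
      ∑ x, val e rel (fun s => lin a x s ^ 2) (p' x) s := by
    intro s
    have hA : ∑ j, val e (prel rel) (fun S => a S ^ 2) p (s, j) ≤
        n s ^ (1 - e) * P s ^ e * Real.exp (-lev rel P s) := by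
      calc ∑ j, val e (prel rel) (fun S => a S ^ 2) p (s, j)
          ≤ ∑ j, (a (s, j) ^ 2) ^ (1 - e) * p (s, j) ^ e * Real.exp (-lev rel P s) := by
            refine sum_le_sum fun j _ => ?_
            unfold val
            have h1 := Real.rpow_nonneg (sq_nonneg (a (s, j))) (1 - e)
            have h2 := Real.rpow_nonneg (hp (s, j)) e
            have h3 : lev rel P s ≤ lev (prel rel) p (s, j) := by
              rw [lev_prel]
              exact le_add_of_nonneg_right (uni_nonneg rel hp _)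
            gcongr
        _ = (∑ j, (a (s, j) ^ 2) ^ (1 - e) * p (s, j) ^ e) * Real.exp (-lev rel P s) := by
            rw [sum_mul]
        _ ≤ _ := by
            gcongr
            exact holder univ he he1 (fun j _ => sq_nonneg _) (fun j _ => hp _)
    rcases (hn0 s).eq_or_lt with h | h
    · have h0 : n s ^ (1 - e) = 0 := by
        rw [← h]
        exact Real.zero_rpow (by linarith)
      rw [h0, zero_mul, zero_mul] at hA
      have h1 : 0 ≤ ∑ x, val e rel (fun s => lin a x s ^ 2) (p' x) s :=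
        sum_nonneg fun x _ => val_nonneg e rel (fun _ => sq_nonneg _) (hp'0 x) s
      nlinarith
    set K : ℝ := n s ^ (1 - e) * P s ^ e * Real.exp (-lev rel P s) with hK
    have hK0 : 0 ≤ K := by
      have h1 := Real.rpow_nonneg (hn0 s) (1 - e)
      have h2 := Real.rpow_nonneg (hP0 s) e
      positivity
    have pt : ∀ x, K / 3 * (u x s * (1 + lev rel P s) - u x s * lev rel (p' x) s) ≤
        val e rel (fun s => lin a x s ^ 2) (p' x) s := by
      intro x
      unfold val
      have h1 : lin a x s ^ 2 = n s * u x s := by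
        simp only [hu]
        field_simp
      have h2 : (n s * u x s) ^ (1 - e) * (P s * u x s / 3) ^ e =
          n s ^ (1 - e) * P s ^ e * u x s / 3 ^ e := by
        rw [Real.mul_rpow (hn0 s) (hu0 x s), Real.div_rpow (mul_nonneg (hP0 s) (hu0 x s))
          (by norm_num), Real.mul_rpow (hP0 s) (hu0 x s)]
        have h3 : u x s ^ (1 - e) * u x s ^ e = u x s := by
          rw [← Real.rpow_add' (hu0 x s) (by linarith)]
          simp
        calc n s ^ (1 - e) * u x s ^ (1 - e) * (P s ^ e * u x s ^ e / 3 ^ e)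
            = n s ^ (1 - e) * P s ^ e * (u x s ^ (1 - e) * u x s ^ e) / 3 ^ e := by ring
          _ = _ := by rw [h3]
      have h4 : (3 : ℝ) ^ e ≤ 3 := by
        have := Real.rpow_le_rpow_of_exponent_le (by norm_num : (1 : ℝ) ≤ 3) he1.le
        simpa using this
      have h5 : (0 : ℝ) < 3 ^ e := by positivity
      have h6 : Real.exp (-lev rel P s) * (1 + lev rel P s - lev rel (p' x) s) ≤
          Real.exp (-lev rel (p' x) s) := by
        have h7 := Real.add_one_le_exp (lev rel P s - lev rel (p' x) s)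
        calc Real.exp (-lev rel P s) * (1 + lev rel P s - lev rel (p' x) s)
            ≤ Real.exp (-lev rel P s) * Real.exp (lev rel P s - lev rel (p' x) s) := by
              gcongr
              linarith
          _ = _ := by
              rw [← Real.exp_add]
              congr 1
              ring
      have h8 : 0 ≤ n s ^ (1 - e) * P s ^ e * u x s :=
        mul_nonneg (mul_nonneg (Real.rpow_nonneg (hn0 s) _) (Real.rpow_nonneg (hP0 s) _))
          (hu0 x s)
      simp only [h1, hp']
      rw [h2]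
      calc K / 3 * (u x s * (1 + lev rel P s) - u x s * lev rel (p' x) s)
          = n s ^ (1 - e) * P s ^ e * u x s / 3 *
            (Real.exp (-lev rel P s) * (1 + lev rel P s - lev rel (p' x) s)) := by
            rw [hK]
            ring
        _ ≤ n s ^ (1 - e) * P s ^ e * u x s / 3 * Real.exp (-lev rel (p' x) s) := by gcongr
        _ ≤ n s ^ (1 - e) * P s ^ e * u x s / 3 ^ e * Real.exp (-lev rel (p' x) s) := by gcongr
    have s1 : ∑ x, u x s = N := by
      simp only [hu]
      rw [← sum_div, m2, mul_div_assoc, div_self h.ne', mul_one]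
    have s2 : ∑ x, u x s * lev rel (p' x) s ≤ N * lev rel P s := by
      unfold lev
      simp only [mul_sum]
      rw [sum_comm]
      refine sum_le_sum fun t _ => ?_
      by_cases hst : rel s t
      · simp only [hst, if_true, hp']
        have : ∑ x, u x s * (P t * u x t / 3) = P t / 3 * ∑ x, u x s * u x t := by
          rw [mul_sum]
          exact sum_congr rfl fun x _ => by ring
        rw [this]
        nlinarith [uu s t, hP0 t]
      · simp [hst]
    have s3 := sum_le_sum fun x (_ : x ∈ univ) => pt x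
    rw [← mul_sum, sum_sub_distrib, ← sum_mul, s1] at s3
    have s4 : K / 3 * N ≤ K / 3 * (N * (1 + lev rel P s) - ∑ x, u x s * lev rel (p' x) s) := by
      gcongr
      linarith
    nlinarith
  have tot : ∑ _x : ι → Bool, Psi e (prel rel) (fun S => a S ^ 2) p / 3 ≤
      ∑ x, Psi e rel (fun s => lin a x s ^ 2) (p' x) := by
    unfold Psi
    rw [sum_comm (s := (univ : Finset (ι → Bool))) (t := (univ : Finset τ)), sum_const,
      card_univ, nsmul_eq_mul, Fintype.sum_prod_type, sum_div, mul_sum]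
    exact sum_le_sum fun s _ => lab s
  obtain ⟨x, -, hx⟩ := exists_le_of_sum_le univ_nonempty tot
  exact ⟨x, p' x, hp'0 x, hx⟩

end Pool.Agent.MP_9e8696_an.H68
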