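import Mathlib

/-!
Pinned potential for block-multilinear forms: definitions and the one-block statement `Core`.
-/

namespace Pool.Agent.MP_9e8696_an.H68

open Finset

/-- The sign of a bit. -/
def sg (b : Bool) : ℝ := if b then 1 else -1

section
variable {I : Type} [Fintype I]

open Classical in
/-- The mass of `p` on the indices related to `S`. -/
noncomputable def lev (rel : I → I → Prop) (p : I → ℝ) (S : I) : ℝ :=
  ∑ T, if rel S T then p T else 0

/-- One summand `v_S = q_S^(1-e) p_S^e exp(-H_S)` of the potential. -/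
noncomputable def val (e : ℝ) (rel : I → I → Prop) (q p : I → ℝ) (S : I) : ℝ :=
  q S ^ (1 - e) * p S ^ e * Real.exp (-lev rel p S)

/-- The potential at the weights `p`. -/
noncomputable def Psi (e : ℝ) (rel : I → I → Prop) (q p : I → ℝ) : ℝ :=
  ∑ S, val e rel q p S

/-- `p` is a maximiser of the potential, with its first-order condition `e v_S = p_S R_S`. -/
structure Opt (e : ℝ) (rel : I → I → Prop) (q p : I → ℝ) : Prop where
  nonneg : ∀ S, 0 ≤ p S
  kkt : ∀ S, e * val e rel q p S = p S * lev rel (val e rel q p) S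
  best : ∀ p' : I → ℝ, (∀ S, 0 ≤ p' S) → Psi e rel q p' ≤ Psi e rel q p

end

section
variable {τ ι : Type} [Fintype τ] [Fintype ι]

/-- Collisions before the block is revealed: the labels collide or the names agree. -/
def prel (rel : τ → τ → Prop) (S T : τ × ι) : Prop := rel S.1 T.1 ∨ S.2 = T.2

open Classical in
/-- The mass of `v` colliding with `S` only through the name. -/
noncomputable def uni (rel : τ → τ → Prop) (v : τ × ι → ℝ) (S : τ × ι) : ℝ :=
  ∑ t, if rel S.1 t then 0 else v (t, S.2)

/-- `S` is a tail index: more than half of `R_S` is unique collision. -/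
def Tail (rel : τ → τ → Prop) (v : τ × ι → ℝ) (S : τ × ι) : Prop :=
  lev (prel rel) v S < 2 * uni rel v S

/-- The budget `B` of unique collisions. -/
noncomputable def bud (rel : τ → τ → Prop) (p v : τ × ι → ℝ) : ℝ :=
  ∑ S, p S * uni rel v S

open Classical in
/-- The value carried by tail indices. -/
noncomputable def tailV (rel : τ → τ → Prop) (v : τ × ι → ℝ) : ℝ :=
  ∑ S, if Tail rel v S then v S else 0

open Classical in
/-- The value times level carried by tail indices. -/
noncomputable def tailH (rel : τ → τ → Prop) (p v : τ × ι → ℝ) : ℝ :=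
  ∑ S, if Tail rel v S then v S * lev (prel rel) p S else 0

/-- The coefficient of label `s` after the block is set to `x`. -/
noncomputable def lin (a : τ × ι → ℝ) (x : ι → Bool) (s : τ) : ℝ := ∑ j, a (s, j) * sg (x j)

end

/-- The one-block step: revealing the block costs at most `C` times the three budgets. -/
def Core (e C : ℝ) : Prop :=
  ∀ (τ ι : Type) [Fintype τ] [Fintype ι] [DecidableEq τ] [DecidableEq ι] (rel : τ → τ → Prop),
    (∀ s, rel s s) → (∀ s t, rel s t → rel t s) →
    ∀ a p : τ × ι → ℝ, Opt e (prel rel) (fun S => a S ^ 2) p →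
      ∃ (x : ι → Bool) (p' : τ → ℝ), (∀ s, 0 ≤ p' s) ∧
        Psi e (prel rel) (fun S => a S ^ 2) p -
            C * (bud rel p (val e (prel rel) (fun S => a S ^ 2) p) +
              tailV rel (val e (prel rel) (fun S => a S ^ 2) p) +
              tailH rel p (val e (prel rel) (fun S => a S ^ 2) p)) ≤
          Psi e rel (fun s => lin a x s ^ 2) p'

/-- The block-multilinear form with coefficient tensor `c`. -/
noncomputable def bml {ι : Type} [Fintype ι] [DecidableEq ι] {d : ℕ} (c : (Fin d → ι) → ℝ)
    (x : Fin d → ι → Bool) : ℝ :=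
  ∑ S, c S * ∏ k, sg (x k (S k))

/-- The influence of name `j` of block `k`. -/
noncomputable def infl {ι : Type} [Fintype ι] [DecidableEq ι] {d : ℕ} (c : (Fin d → ι) → ℝ)
    (k : Fin d) (j : ι) : ℝ :=
  ∑ S, if S k = j then c S ^ 2 else 0

/-- Polynomial Aaronson-Ambainis for coefficient tensors. -/
def TensorAA : Prop :=
  ∃ C₁ C₂ : ℝ, 0 < C₁ ∧ 0 < C₂ ∧
    ∀ (ι : Type) [Fintype ι] [DecidableEq ι] [Nonempty ι] (d : ℕ), 1 ≤ d →
      ∀ c : (Fin d → ι) → ℝ, (∀ x, |bml c x| ≤ 1) →
        ∃ k j, C₁ * ((∑ S, c S ^ 2) / d) ^ C₂ ≤ infl c k j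

end Pool.Agent.MP_9e8696_an.H68
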