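import Pool.Agent.MP_9e8696_an.H68.Crude

/-!
From the one-block statement `Core` to the polynomial inequality for coefficient tensors.
-/

namespace Pool.Agent.MP_9e8696_an.H68

open Finset

section transport
variable {I J : Type} [Fintype I] [Fintype J]

lemma lev_equiv (E : J ≃ I) {rel : I → I → Prop} {rel' : J → J → Prop}
    (h : ∀ S T, rel' S T ↔ rel (E S) (E T)) (p : I → ℝ) (S : J) :
    lev rel' (fun T => p (E T)) S = lev rel p (E S) := by
  classical
  unfold lev
  rw [← Equiv.sum_comp E]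
  refine sum_congr rfl fun T _ => ?_
  by_cases h1 : rel' S T
  · simp [h1, (h S T).1 h1]
  · have h2 : ¬ rel (E S) (E T) := fun h2 => h1 ((h S T).2 h2)
    simp [h1, h2]

lemma val_equiv (E : J ≃ I) {rel : I → I → Prop} {rel' : J → J → Prop}
    (h : ∀ S T, rel' S T ↔ rel (E S) (E T)) (e : ℝ) (q p : I → ℝ) (S : J) :
    val e rel' (fun T => q (E T)) (fun T => p (E T)) S = val e rel q p (E S) := by
  unfold val
  rw [lev_equiv E h]

lemma Psi_equiv (E : J ≃ I) {rel : I → I → Prop} {rel' : J → J → Prop}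
    (h : ∀ S T, rel' S T ↔ rel (E S) (E T)) (e : ℝ) (q p : I → ℝ) :
    Psi e rel' (fun T => q (E T)) (fun T => p (E T)) = Psi e rel q p := by
  unfold Psi
  rw [← Equiv.sum_comp E]
  exact sum_congr rfl fun S _ => val_equiv E h e q p S

lemma Opt.equiv (E : J ≃ I) {rel : I → I → Prop} {rel' : J → J → Prop}
    (h : ∀ S T, rel' S T ↔ rel (E S) (E T)) {e : ℝ} {q p : I → ℝ} (ho : Opt e rel q p) :
    Opt e rel' (fun T => q (E T)) (fun T => p (E T)) := by
  refine ⟨fun S => ho.nonneg _, fun S => ?_, fun p' hp' => ?_⟩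
  · have h1 : val e rel' (fun T => q (E T)) (fun T => p (E T)) =
        fun T => val e rel q p (E T) := funext fun T => val_equiv E h e q p T
    rw [h1, lev_equiv E h]
    exact ho.kkt _
  · have h1 := Psi_equiv E h e q (fun S => p' (E.symm S))
    simp only [Equiv.symm_apply_apply] at h1
    rw [Psi_equiv E h]
    exact h1.le.trans (ho.best _ fun S => hp' _)

end transport

section tensor
variable {ι : Type} [Fintype ι] [DecidableEq ι]

/-- Two monomials collide when they share a variable. -/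
def trel {r : ℕ} (S T : Fin r → ι) : Prop := ∃ k, S k = T k

/-- A monomial as label and name at block `k`. -/
def ins {r : ℕ} (k : Fin (r + 1)) : (Fin r → ι) × ι ≃ (Fin (r + 1) → ι) :=
  (Equiv.prodComm _ _).trans (Fin.insertNthEquiv (fun _ => ι) k)

omit [Fintype ι] [DecidableEq ι] in
lemma ins_same {r : ℕ} (k : Fin (r + 1)) (S : (Fin r → ι) × ι) : ins k S k = S.2 := by
  simp [ins, Fin.insertNthEquiv]

omit [Fintype ι] [DecidableEq ι] in
lemma ins_above {r : ℕ} (k : Fin (r + 1)) (S : (Fin r → ι) × ι) (i : Fin r) :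
    ins k S (k.succAbove i) = S.1 i := by
  simp [ins, Fin.insertNthEquiv]

omit [Fintype ι] [DecidableEq ι] in
lemma prel_ins {r : ℕ} (k : Fin (r + 1)) (S T : (Fin r → ι) × ι) :
    prel trel S T ↔ trel (ins k S) (ins k T) := by
  unfold prel trel
  rw [Fin.exists_iff_succAbove k]
  simp only [ins_same, ins_above]
  exact Or.comm

omit [Fintype ι] [DecidableEq ι] in
lemma trel_refl {r : ℕ} (S : Fin (r + 1) → ι) : trel S S := ⟨0, rfl⟩

omit [Fintype ι] [DecidableEq ι] in
lemma trel_symm {r : ℕ} (S T : Fin r → ι) (h : trel S T) : trel T S :=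
  h.imp fun _ => Eq.symm

lemma bml_ins {r : ℕ} (k : Fin (r + 1)) (c : (Fin (r + 1) → ι) → ℝ) (x : ι → Bool)
    (y : Fin r → ι → Bool) :
    bml (fun s => lin (fun S => c (ins k S)) x s) y =
      bml c (Fin.insertNth (α := fun _ => ι → Bool) k x y) := by
  unfold bml lin
  rw [← Equiv.sum_comp (ins k), Fintype.sum_prod_type]
  refine sum_congr rfl fun s _ => ?_
  rw [sum_mul]
  refine sum_congr rfl fun j _ => ?_
  rw [Fin.prod_univ_succAbove _ k]
  simp only [ins_same, ins_above, Fin.insertNth_apply_same, Fin.insertNth_apply_succAbove]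
  ring

open Classical in
/-- Unique collisions at block `k`, on the level of monomials. -/
noncomputable def uq {r : ℕ} (k : Fin (r + 1)) (v : (Fin (r + 1) → ι) → ℝ)
    (S : Fin (r + 1) → ι) : ℝ :=
  ∑ T, if S k = T k ∧ ∀ l, l ≠ k → S l ≠ T l then v T else 0

lemma uni_ins {r : ℕ} (k : Fin (r + 1)) (v : (Fin (r + 1) → ι) → ℝ) (S : (Fin r → ι) × ι) :
    uni trel (fun T => v (ins k T)) S = uq k v (ins k S) := by
  classical
  unfold uni uq
  rw [← Equiv.sum_comp (ins k), Fintype.sum_prod_type]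
  refine sum_congr rfl fun t _ => ?_
  have h1 : ∀ j, (ins k S k = ins k (t, j) k ∧ ∀ l, l ≠ k → ins k S l ≠ ins k (t, j) l) ↔
      (S.2 = j ∧ ¬ trel S.1 t) := by
    intro j
    rw [ins_same, ins_same]
    refine and_congr_right fun _ => ⟨fun h ⟨i, hi⟩ => ?_, fun h l hl heq => ?_⟩
    · refine h (k.succAbove i) (Fin.succAbove_ne k i) ?_
      rw [ins_above, ins_above]
      exact hi
    · obtain ⟨i, rfl⟩ := Fin.exists_succAbove_eq hl
      rw [ins_above, ins_above] at heq
      exact h ⟨i, heq⟩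
  by_cases h : trel S.1 t
  · simp [h1, h]
  · simp [h1, h]

lemma uq_nonneg {r : ℕ} (k : Fin (r + 1)) {v : (Fin (r + 1) → ι) → ℝ} (hv : ∀ S, 0 ≤ v S)
    (S : Fin (r + 1) → ι) : 0 ≤ uq k v S := by
  unfold uq
  refine sum_nonneg fun T _ => ?_
  split_ifs
  · exact hv T
  · exact le_rfl

lemma sum_uq_le {r : ℕ} {v : (Fin (r + 1) → ι) → ℝ} (hv : ∀ S, 0 ≤ v S)
    (S : Fin (r + 1) → ι) : ∑ k, uq k v S ≤ lev trel v S := by
  classical
  unfold uq lev
  rw [sum_comm]
  refine sum_le_sum fun T _ => ?_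
  by_cases h : ∃ k, S k = T k ∧ ∀ l, l ≠ k → S l ≠ T l
  · obtain ⟨k, hk⟩ := h
    rw [sum_eq_single k]
    · have h1 : trel S T := ⟨k, hk.1⟩
      rw [if_pos hk, if_pos h1]
    · intro l _ hl
      rw [if_neg]
      exact fun h' => hk.2 l hl h'.1
    · simp
  · rw [sum_eq_zero fun k _ => if_neg fun hk => h ⟨k, hk⟩]
    split_ifs
    · exact hv T
    · exact le_rfl

open Classical in
lemma sum_tail_le {r : ℕ} {v : (Fin (r + 1) → ι) → ℝ} (hv : ∀ S, 0 ≤ v S)
    (S : Fin (r + 1) → ι) {w : ℝ} (hw : 0 ≤ w) :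
    ∑ k, (if lev trel v S < 2 * uq k v S then w else 0) ≤ w := by
  by_cases h : ∃ k, lev trel v S < 2 * uq k v S
  · obtain ⟨k, hk⟩ := h
    rw [sum_eq_single k]
    · rw [if_pos hk]
    · intro l _ hl
      rw [if_neg]
      intro h'
      have h1 : ∑ i ∈ ({l, k} : Finset (Fin (r + 1))), uq i v S ≤ ∑ i, uq i v S :=
        sum_le_sum_of_subset_of_nonneg (subset_univ _) fun i _ _ => uq_nonneg i hv S
      rw [sum_pair hl] at h1
      linarith [sum_uq_le hv S]
    · simp
  · rw [sum_eq_zero fun k _ => if_neg fun hk => h ⟨k, hk⟩]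
    exact hw

/-- The three budgets summed over the blocks. -/
lemma sum_budget {e : ℝ} {r : ℕ} {q p : (Fin (r + 1) → ι) → ℝ} (hq : ∀ S, 0 ≤ q S)
    (ho : Opt e trel q p) :
    ∑ k : Fin (r + 1), (bud trel (fun T => p (ins k T)) (fun T => val e trel q p (ins k T)) +
        tailV trel (fun T => val e trel q p (ins k T)) +
        tailH trel (fun T => p (ins k T)) (fun T => val e trel q p (ins k T))) ≤
      (1 + 2 * e) * Psi e trel q p := by
  classical
  set v := val e trel q p with hv
  have hv0 : ∀ S, 0 ≤ v S := val_nonneg e trel hq ho.nonneg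
  have b1 : ∑ k : Fin (r + 1), bud trel (fun T => p (ins k T)) (fun T => v (ins k T)) ≤
      e * Psi e trel q p := by
    have h1 : ∀ k : Fin (r + 1), bud trel (fun T => p (ins k T)) (fun T => v (ins k T)) =
        ∑ S, p S * uq k v S := by
      intro k
      unfold bud
      rw [← Equiv.sum_comp (ins k)]
      exact sum_congr rfl fun S _ => by rw [uni_ins]
    simp only [h1]
    rw [sum_comm]
    unfold Psi
    rw [mul_sum]
    refine sum_le_sum fun S _ => ?_
    rw [← mul_sum, ho.kkt S]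
    exact mul_le_mul_of_nonneg_left (sum_uq_le hv0 S) (ho.nonneg S)
  have tl : ∀ (k : Fin (r + 1)) (S : (Fin r → ι) × ι), Tail trel (fun T => v (ins k T)) S ↔
      lev trel v (ins k S) < 2 * uq k v (ins k S) := by
    intro k S
    unfold Tail
    rw [uni_ins, lev_equiv (ins k) (prel_ins k)]
  have b2 : ∑ k : Fin (r + 1), tailV trel (fun T => v (ins k T)) ≤ Psi e trel q p := by
    have h1 : ∀ k : Fin (r + 1), tailV trel (fun T => v (ins k T)) =
        ∑ S, if lev trel v S < 2 * uq k v S then v S else 0 := by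
      intro k
      unfold tailV
      rw [← Equiv.sum_comp (ins k)]
      exact sum_congr rfl fun S _ => by simp only [tl]
    simp only [h1]
    rw [sum_comm]
    exact sum_le_sum fun S _ => sum_tail_le hv0 S (hv0 S)
  have b3 : ∑ k : Fin (r + 1), tailH trel (fun T => p (ins k T)) (fun T => v (ins k T)) ≤
      e * Psi e trel q p := by
    have h1 : ∀ k : Fin (r + 1), tailH trel (fun T => p (ins k T)) (fun T => v (ins k T)) =
        ∑ S, if lev trel v S < 2 * uq k v S then v S * lev trel p S else 0 := by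
      intro k
      unfold tailH
      rw [← Equiv.sum_comp (ins k)]
      exact sum_congr rfl fun S _ => by simp only [tl, lev_equiv (ins k) (prel_ins k)]
    simp only [h1]
    rw [sum_comm, ← ho.sum_val_lev trel_symm]
    exact sum_le_sum fun S _ =>
      sum_tail_le hv0 S (mul_nonneg (hv0 S) (lev_nonneg trel ho.nonneg S))
  simp only [sum_add_distrib]
  linarith

/-- One step on tensors. -/
lemma tensor_step {e C : ℝ} (he : 0 < e) (he1 : e ≤ 1 / 2) (hc : Core e C) {M : ℝ}
    (hM : 6 * |C| ≤ M) {r : ℕ} (c p : (Fin (r + 2) → ι) → ℝ) (hp : ∀ S, 0 ≤ p S) :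
    ∃ (k : Fin (r + 2)) (x : ι → Bool) (p' : (Fin (r + 1) → ι) → ℝ), (∀ s, 0 ≤ p' s) ∧
      Psi e trel (fun S => c S ^ 2) p ≤ (1 + M / (r + 2)) *
        Psi e trel (fun s => lin (fun S => c (ins k S)) x s ^ 2) p' := by
  have hρ : (0 : ℝ) < r + 2 := by positivity
  have hM0 : 0 ≤ M := le_trans (by positivity) hM
  rcases le_total (2 * ((r : ℝ) + 2)) M with hs | hs
  · obtain ⟨x, p', hp', h⟩ := crude he (by linarith) (trel (r := r + 1) (ι := ι))
      (fun S => c (ins 0 S)) (p := fun S => p (ins 0 S)) (fun S => hp _)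
    refine ⟨0, x, p', hp', ?_⟩
    rw [Psi_equiv (ins 0) (prel_ins 0) e (fun S => c S ^ 2) p] at h
    have h1 : 2 ≤ M / (r + 2) := by rwa [le_div_iff₀ hρ]
    have h2 := Psi_nonneg e (trel (r := r + 1) (ι := ι))
      (q := fun s => lin (fun S => c (ins 0 S)) x s ^ 2) (fun _ => sq_nonneg _) hp'
    nlinarith
  · obtain ⟨o, ho⟩ := exists_opt he (by linarith) (trel (r := r + 2) (ι := ι)) trel_refl
      trel_symm (q := fun S => c S ^ 2) (fun _ => sq_nonneg _)
    set Φ := Psi e trel (fun S => c S ^ 2) o with hΦ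
    have hΦ0 : 0 ≤ Φ := Psi_nonneg e trel (fun _ => sq_nonneg _) ho.nonneg
    have hb := sum_budget (fun _ => sq_nonneg _) ho
    have hb2 : ∑ k : Fin (r + 2), (bud trel (fun T => o (ins k T))
          (fun T => val e trel (fun S => c S ^ 2) o (ins k T)) +
        tailV trel (fun T => val e trel (fun S => c S ^ 2) o (ins k T)) +
        tailH trel (fun T => o (ins k T)) (fun T => val e trel (fun S => c S ^ 2) o (ins k T))) ≤
        ∑ _k : Fin (r + 2), 2 * Φ / (r + 2) := by
      rw [sum_const, card_univ, Fintype.card_fin, nsmul_eq_mul]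
      have : ((r + 2 : ℕ) : ℝ) * (2 * Φ / (r + 2)) = 2 * Φ := by
        push_cast
        field_simp
      rw [this]
      nlinarith
    obtain ⟨k, -, hk⟩ := exists_le_of_sum_le univ_nonempty hb2
    obtain ⟨x, p', hp', h⟩ := hc (Fin (r + 1) → ι) ι trel trel_refl trel_symm
      (fun S => c (ins k S)) (fun S => o (ins k S)) (ho.equiv (ins k) (prel_ins k))
    refine ⟨k, x, p', hp', (ho.best p hp).trans ?_⟩
    have h1 : val e (prel trel) (fun S => c (ins k S) ^ 2) (fun S => o (ins k S)) =
        fun T => val e trel (fun S => c S ^ 2) o (ins k T) :=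
      funext fun T => val_equiv (ins k) (prel_ins k) e (fun S => c S ^ 2) o T
    rw [Psi_equiv (ins k) (prel_ins k) e (fun S => c S ^ 2) o, h1] at h
    have hv0 : ∀ T, 0 ≤ val e trel (fun S => c S ^ 2) o (ins k T) := fun T =>
      val_nonneg e trel (fun _ => sq_nonneg _) ho.nonneg _
    set B := bud trel (fun T => o (ins k T))
          (fun T => val e trel (fun S => c S ^ 2) o (ins k T)) +
        tailV trel (fun T => val e trel (fun S => c S ^ 2) o (ins k T)) +
        tailH trel (fun T => o (ins k T)) (fun T => val e trel (fun S => c S ^ 2) o (ins k T))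
      with hB
    have hB0 : 0 ≤ B := by
      refine add_nonneg (add_nonneg ?_ ?_) ?_
      · exact sum_nonneg fun S _ => mul_nonneg (ho.nonneg _) (uni_nonneg _ hv0 S)
      · refine sum_nonneg fun S _ => ?_
        split_ifs
        · exact hv0 S
        · exact le_rfl
      · refine sum_nonneg fun S _ => ?_
        split_ifs
        · exact mul_nonneg (hv0 S) (lev_nonneg _ (fun _ => ho.nonneg _) S)
        · exact le_rfl
    have h2 : C * B ≤ |C| * (2 * Φ / (r + 2)) :=
      (mul_le_mul_of_nonneg_right (le_abs_self C) hB0).trans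
        (mul_le_mul_of_nonneg_left hk (abs_nonneg C))
    have h3 : M / (r + 2) ≤ 2 := by rwa [div_le_iff₀ hρ]
    have h4 : 0 ≤ M / (r + 2) := by positivity
    have h5 : |C| * (2 * Φ / (r + 2)) ≤ M / (r + 2) / 3 * Φ := by
      have h6 : |C| * (2 * Φ / (r + 2)) = (2 * |C|) * (Φ / (r + 2)) := by ring
      have h7 : M / (r + 2) / 3 * Φ = (M / 3) * (Φ / (r + 2)) := by ring
      rw [h6, h7]
      exact mul_le_mul_of_nonneg_right (by linarith) (by positivity)
    set t := M / (r + 2) with ht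
    have h8 : (1 - t / 3) * Φ ≤
        Psi e trel (fun s => lin (fun S => c (ins k S)) x s ^ 2) p' := by linarith
    have h9 : Φ ≤ (1 + t) * ((1 - t / 3) * Φ) := by
      have : 0 ≤ t * (2 - t) * Φ := mul_nonneg (mul_nonneg h4 (by linarith)) hΦ0
      nlinarith
    exact h9.trans (mul_le_mul_of_nonneg_left h8 (by linarith))

/-- The end: one block. -/
lemma tensor_end {e : ℝ} (he : 0 < e) (he1 : e ≤ 1 / 2) (c p : (Fin 1 → ι) → ℝ)
    (hp : ∀ S, 0 ≤ p S) (hc : ∀ x, |bml c x| ≤ 1) : Psi e trel (fun S => c S ^ 2) p ≤ 1 := by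
  have h1 : ∑ S, |c S| ≤ 1 := by
    have h := hc fun _ j => decide (0 ≤ c fun _ => j)
    refine le_trans (le_of_eq ?_) ((le_abs_self _).trans h)
    unfold bml
    refine sum_congr rfl fun S _ => ?_
    have hS : (fun _ => S 0) = S := funext fun i => by rw [Subsingleton.elim i 0]
    rw [Fin.prod_univ_one]
    simp only [hS]
    by_cases h0 : 0 ≤ c S
    · simp [sg, h0, abs_of_nonneg h0]
    · simp [sg, h0, abs_of_neg (not_le.1 h0)]
  refine le_trans (sum_le_sum fun S _ => ?_) h1
  have h2 : |c S| ≤ 1 :=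
    (single_le_sum (f := fun S => |c S|) (fun _ _ => abs_nonneg _) (mem_univ S)).trans h1
  have h3 : (c S ^ 2) ^ (1 - e) ≤ |c S| := by
    rw [← sq_abs, ← Real.rpow_natCast, ← Real.rpow_mul (abs_nonneg _)]
    have := Real.rpow_le_rpow_of_exponent_ge' (abs_nonneg (c S)) h2 zero_le_one
      (show (1 : ℝ) ≤ ((2 : ℕ) : ℝ) * (1 - e) by push_cast; linarith)
    simpa using this
  have h4 : p S ^ e * Real.exp (-lev trel p S) ≤ 1 := by
    have h5 : p S ^ e ≤ Real.exp (p S) := by
      rcases le_total (p S) 1 with h | h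
      · exact (Real.rpow_le_one (hp S) h he.le).trans (Real.one_le_exp (hp S))
      · have h6 := Real.rpow_le_rpow_of_exponent_le h (show e ≤ 1 by linarith)
        rw [Real.rpow_one] at h6
        linarith [Real.add_one_le_exp (p S)]
    rw [Real.exp_neg, ← div_eq_mul_inv, div_le_one (Real.exp_pos _)]
    exact h5.trans (Real.exp_le_exp.2 (le_lev trel trel_refl hp S))
  unfold val
  rw [mul_assoc]
  calc (c S ^ 2) ^ (1 - e) * (p S ^ e * Real.exp (-lev trel p S)) ≤ |c S| * 1 :=
        mul_le_mul h3 h4 (mul_nonneg (Real.rpow_nonneg (hp S) _) (Real.exp_pos _).le)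
          (abs_nonneg _)
    _ = |c S| := mul_one _

/-- The potential of a bounded form on `r + 1` blocks is at most `(r + 1) ^ m`. -/
lemma tensor_bound {e C : ℝ} (he : 0 < e) (he1 : e ≤ 1 / 2) (hc : Core e C) {m : ℕ}
    (hm : 6 * |C| ≤ m) (r : ℕ) : ∀ c p : (Fin (r + 1) → ι) → ℝ, (∀ S, 0 ≤ p S) →
      (∀ x, |bml c x| ≤ 1) → Psi e trel (fun S => c S ^ 2) p ≤ ((r : ℝ) + 1) ^ m := by
  induction r with
  | zero =>
    intro c p hp h
    simpa using tensor_end he he1 c p hp h
  | succ r ih =>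
    intro c p hp h
    obtain ⟨k, x, p', hp', h1⟩ := tensor_step he he1 hc hm c p hp
    have h2 := ih (fun s => lin (fun S => c (ins k S)) x s) p' hp' fun y => by
      rw [bml_ins]
      exact h _
    have hρ : (0 : ℝ) < r + 1 := by positivity
    have h3 : 1 + (m : ℝ) / (r + 2) ≤ (1 + 1 / ((r : ℝ) + 1)) ^ m := by
      have h4 := one_add_mul_le_pow (a := 1 / ((r : ℝ) + 1))
        (le_trans (by norm_num) (by positivity : (0 : ℝ) ≤ 1 / ((r : ℝ) + 1))) m
      have h5 : (m : ℝ) / (r + 2) ≤ m * (1 / ((r : ℝ) + 1)) := by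
        rw [mul_one_div]
        gcongr
        linarith
      linarith
    calc Psi e trel (fun S => c S ^ 2) p
        ≤ (1 + (m : ℝ) / (r + 2)) * ((r : ℝ) + 1) ^ m :=
          h1.trans (mul_le_mul_of_nonneg_left h2 (by positivity))
      _ ≤ (1 + 1 / ((r : ℝ) + 1)) ^ m * ((r : ℝ) + 1) ^ m := by gcongr
      _ = (((r + 1 : ℕ) : ℝ) + 1) ^ m := by
          rw [← mul_pow]
          congr 1
          push_cast
          field_simp

/-- The squared norm of a bounded form is at most one. -/
lemma tensor_norm (r : ℕ) : ∀ c : (Fin r → ι) → ℝ, (∀ x, |bml c x| ≤ 1) → ∑ S, c S ^ 2 ≤ 1 := by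
  induction r with
  | zero =>
    intro c h
    have h1 := h fun _ _ => true
    simp only [bml, Finset.univ_unique, sum_singleton, Finset.univ_eq_empty, prod_empty,
      mul_one] at h1
    simp only [Finset.univ_unique, sum_singleton]
    exact (sq_le_one_iff_abs_le_one _).2 h1
  | succ r ih =>
    intro c h
    have h1 : ∀ x, ∑ s, lin (fun S => c (ins 0 S)) x s ^ 2 ≤ 1 := fun x =>
      ih _ fun y => by
        rw [bml_ins]
        exact h _
    have h2 := sum_le_sum fun x (_ : x ∈ univ) => h1 x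
    rw [sum_comm, sum_const, card_univ, nsmul_eq_mul, mul_one] at h2
    have h3 : ∀ s, ∑ x, lin (fun S => c (ins 0 S)) x s ^ 2 =
        (Fintype.card (ι → Bool) : ℝ) * ∑ j, c (ins 0 (s, j)) ^ 2 := fun s =>
      (moments_on (fun j => c (ins 0 (s, j))) univ).1
    simp only [h3] at h2
    rw [← mul_sum] at h2
    have hN : (0 : ℝ) < Fintype.card (ι → Bool) := by exact_mod_cast Fintype.card_pos
    rw [← Equiv.sum_comp (ins 0), Fintype.sum_prod_type]
    exact (mul_le_iff_le_one_right hN).1 h2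

/-- The start: the potential at the weights `q / (d η)`. -/
lemma tensor_start {e : ℝ} {d : ℕ} (hd : 1 ≤ d) (c : (Fin d → ι) → ℝ) {η : ℝ} (hη : 0 < η)
    (h : ∀ k j, infl c k j ≤ η) :
    (∑ S, c S ^ 2) / (3 * (d * η) ^ e) ≤
      Psi e trel (fun S => c S ^ 2) (fun S => c S ^ 2 / (d * η)) := by
  classical
  have hd0 : (0 : ℝ) < d := by exact_mod_cast hd
  have hD : 0 < (d : ℝ) * η := by positivity
  rw [sum_div]
  refine sum_le_sum fun S _ => ?_
  have h1 : lev trel (fun S => c S ^ 2 / (d * η)) S ≤ 1 := by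
    have h2 : lev trel (fun S => c S ^ 2 / (d * η)) S ≤ (∑ k, infl c k (S k)) / (d * η) := by
      unfold lev infl
      rw [sum_comm, sum_div]
      refine sum_le_sum fun T _ => ?_
      have h3 : ∀ k ∈ (univ : Finset (Fin d)), 0 ≤ if T k = S k then c T ^ 2 else 0 := by
        intro k _
        split_ifs
        · exact sq_nonneg _
        · exact le_rfl
      split_ifs with hT
      · obtain ⟨k, hk⟩ := hT
        have h4 := single_le_sum h3 (mem_univ k)
        rw [if_pos hk.symm] at h4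
        exact div_le_div_of_nonneg_right h4 hD.le
      · exact div_nonneg (sum_nonneg h3) hD.le
    refine h2.trans ?_
    rw [div_le_one hD]
    have h5 := sum_le_sum fun k (_ : k ∈ (univ : Finset (Fin d))) => h k (S k)
    simpa using h5
  have h6 : (1 : ℝ) / 3 ≤ Real.exp (-lev trel (fun S => c S ^ 2 / (d * η)) S) := by
    refine le_trans ?_ (Real.exp_le_exp.2 (neg_le_neg h1))
    rw [Real.exp_neg, one_div]
    exact inv_anti₀ (Real.exp_pos _) (by linarith [Real.exp_one_lt_d9])
  unfold val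
  have h7 : (c S ^ 2) ^ (1 - e) * (c S ^ 2 / (d * η)) ^ e = c S ^ 2 / (d * η) ^ e := by
    rw [Real.div_rpow (sq_nonneg _) hD.le, ← mul_div_assoc,
      ← Real.rpow_add' (sq_nonneg _) (by linarith)]
    simp
  rw [h7]
  calc c S ^ 2 / (3 * (d * η) ^ e) = c S ^ 2 / (d * η) ^ e * (1 / 3) := by ring
    _ ≤ _ := by gcongr

end tensor

theorem frame {e C : ℝ} (he : 0 < e) (he1 : e ≤ 1 / 2) (hc : Core e C) : TensorAA := by
  obtain ⟨m, hm⟩ := exists_nat_ge (6 * |C|)
  refine ⟨(1 / 3) ^ e⁻¹, (m + 1) * e⁻¹, by positivity, by positivity, ?_⟩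
  intro ι _ _ _ d hd c hb
  obtain ⟨r, rfl⟩ : ∃ r, d = r + 1 := ⟨d - 1, by omega⟩
  obtain ⟨⟨k, j⟩, -, hkj⟩ := exists_max_image (univ : Finset (Fin (r + 1) × ι))
    (fun z => infl c z.1 z.2) univ_nonempty
  refine ⟨k, j, ?_⟩
  set η := infl c k j with hηdef
  set V := ∑ S, c S ^ 2 with hV
  have hV0 : 0 ≤ V := sum_nonneg fun _ _ => sq_nonneg _
  have hV1 : V ≤ 1 := tensor_norm _ c hb
  have hinf : ∀ k j, 0 ≤ infl c k j := fun k j => sum_nonneg fun S _ => by
    split_ifs
    · exact sq_nonneg _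
    · exact le_rfl
  have hle : ∀ k' j', infl c k' j' ≤ η := fun k' j' => hkj (k', j') (mem_univ _)
  have hd0 : (1 : ℝ) ≤ ((r + 1 : ℕ) : ℝ) := by exact_mod_cast hd
  set D : ℝ := ((r + 1 : ℕ) : ℝ) with hD
  rcases (hinf k j).eq_or_lt with h0 | hη
  · have hz : V = 0 := by
      refine sum_eq_zero fun S _ => ?_
      have h1 : c S ^ 2 ≤ infl c 0 (S 0) := by
        have h2 := single_le_sum (f := fun T => if T 0 = S 0 then c T ^ 2 else 0)
          (s := univ) (fun T _ => by
            split_ifs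
            · exact sq_nonneg _
            · exact le_rfl) (mem_univ S)
        simpa [infl] using h2
      have h3 := hle 0 (S 0)
      rw [hηdef, ← h0] at h3
      exact le_antisymm (h1.trans h3) (sq_nonneg _)
    rw [hz, zero_div, Real.zero_rpow (by positivity), mul_zero]
    exact hinf k j
  · have h1 := tensor_start (e := e) hd c hη hle
    have h2 := tensor_bound he he1 hc hm r c (fun S => c S ^ 2 / (((r + 1 : ℕ) : ℝ) * η))
      (fun S => by positivity) hb
    have h3 : V / (3 * (D * η) ^ e) ≤ D ^ m := by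
      have h4 : D = (r : ℝ) + 1 := by rw [hD]; push_cast; ring
      exact (h1.trans h2).trans (le_of_eq (by rw [h4]))
    have hDpos : 0 < D := by linarith
    have h5 : (1 / 3) * (V / D) ^ (m + 1) * D ≤ (D * η) ^ e := by
      rw [div_le_iff₀ (by positivity)] at h3
      have h6 : V ^ (m + 1) ≤ V := pow_le_of_le_one hV0 hV1 (by omega)
      have h7 : (1 / 3) * (V / D) ^ (m + 1) * D = V ^ (m + 1) / (3 * D ^ m) := by
        rw [div_pow, pow_succ D]
        field_simp
      rw [h7, div_le_iff₀ (by positivity)]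
      linarith
    have h8 : (D * η) ^ e ≤ D * η ^ e := by
      rw [Real.mul_rpow hDpos.le hη.le]
      have h9 := Real.rpow_le_rpow_of_exponent_le hd0 (show e ≤ 1 by linarith)
      rw [Real.rpow_one] at h9
      gcongr
    have h10 : (1 / 3) * (V / D) ^ (m + 1) ≤ η ^ e := by
      have := h5.trans h8
      rw [mul_comm D] at this
      exact le_of_mul_le_mul_right this hDpos
    have h11 := Real.rpow_le_rpow (by positivity) h10 (inv_nonneg.2 he.le)
    rw [Real.rpow_rpow_inv hη.le he.ne', Real.mul_rpow (by norm_num) (by positivity),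
      ← Real.rpow_natCast, ← Real.rpow_mul (by positivity)] at h11
    push_cast at h11
    exact h11

end Pool.Agent.MP_9e8696_an.H68
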