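import Pool.Agent.MP_9e8696_an.H68.Defs

/-!
The potential has a maximiser, and the first-order condition holds there.
-/

namespace Pool.Agent.MP_9e8696_an.H68

open Finset

variable {I : Type} [Fintype I]

lemma lev_nonneg (rel : I → I → Prop) {p : I → ℝ} (hp : ∀ S, 0 ≤ p S) (S : I) :
    0 ≤ lev rel p S := by
  unfold lev
  refine sum_nonneg fun T _ => ?_
  split_ifs
  · exact hp T
  · exact le_rfl

lemma val_nonneg (e : ℝ) (rel : I → I → Prop) {q p : I → ℝ} (hq : ∀ S, 0 ≤ q S)
    (hp : ∀ S, 0 ≤ p S) (S : I) : 0 ≤ val e rel q p S := by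
  unfold val
  have h1 := Real.rpow_nonneg (hq S) (1 - e)
  have h2 := Real.rpow_nonneg (hp S) e
  positivity

lemma Psi_nonneg (e : ℝ) (rel : I → I → Prop) {q p : I → ℝ} (hq : ∀ S, 0 ≤ q S)
    (hp : ∀ S, 0 ≤ p S) : 0 ≤ Psi e rel q p :=
  sum_nonneg fun S _ => val_nonneg e rel hq hp S

lemma le_lev (rel : I → I → Prop) (hr : ∀ s, rel s s) {p : I → ℝ} (hp : ∀ S, 0 ≤ p S) (S : I) :
    p S ≤ lev rel p S := by
  classical
  unfold lev
  have h := single_le_sum (f := fun T => if rel S T then p T else 0) (s := univ)
    (fun T _ => by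
      split_ifs
      · exact hp T
      · exact le_rfl) (mem_univ S)
  simpa [hr S] using h

lemma lev_sub (rel : I → I → Prop) (p p' : I → ℝ) (S : I) :
    lev rel (fun T => p T - p' T) S = lev rel p S - lev rel p' S := by
  unfold lev
  rw [← sum_sub_distrib]
  refine sum_congr rfl fun T _ => ?_
  split_ifs <;> simp

lemma lev_mono (rel : I → I → Prop) {p p' : I → ℝ} (h : ∀ S, p S ≤ p' S) (S : I) :
    lev rel p S ≤ lev rel p' S := by
  unfold lev
  refine sum_le_sum fun T _ => ?_
  split_ifs
  · exact h T
  · exact le_rfl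

/-- Exchange of the order of summation in `∑ u_S lev w S`. -/
lemma sum_mul_lev (rel : I → I → Prop) (hs : ∀ s t, rel s t → rel t s) (u w : I → ℝ) :
    ∑ S, u S * lev rel w S = ∑ S, w S * lev rel u S := by
  unfold lev
  simp only [mul_sum]
  rw [sum_comm]
  refine sum_congr rfl fun S _ => sum_congr rfl fun T _ => ?_
  by_cases h : rel S T
  · simp [h, hs S T h, mul_comm]
  · have h' : ¬ rel T S := fun h' => h (hs T S h')
    simp [h, h']

lemma continuous_Psi {e : ℝ} (he : 0 < e) (rel : I → I → Prop) (q : I → ℝ) :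
    Continuous fun p : I → ℝ => Psi e rel q p := by
  unfold Psi val lev
  refine continuous_finsetSum _ fun S _ => ?_
  refine (continuous_const.mul ?_).mul ?_
  · exact (Real.continuous_rpow_const he.le).comp (continuous_apply S)
  · refine Real.continuous_exp.comp (Continuous.neg ?_)
    refine continuous_finsetSum _ fun T _ => ?_
    split_ifs
    · exact continuous_apply T
    · exact continuous_const

lemma val_le_trunc {e : ℝ} (he1 : e ≤ 1) (rel : I → I → Prop) (hr : ∀ s, rel s s)
    {q p : I → ℝ} (hq : ∀ S, 0 ≤ q S) (hp : ∀ S, 0 ≤ p S) (S : I) :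
    val e rel q p S ≤ val e rel q (fun T => min (p T) 1) S := by
  have h1 : p S - min (p S) 1 ≤ lev rel p S - lev rel (fun T => min (p T) 1) S := by
    rw [← lev_sub]
    exact le_lev rel hr (p := fun T => p T - min (p T) 1)
      (fun T => sub_nonneg.2 (min_le_left _ _)) S
  have h2 : p S ^ e * Real.exp (-(p S - min (p S) 1)) ≤ (min (p S) 1) ^ e := by
    rcases le_total (p S) 1 with h | h
    · simp [min_eq_left h]
    · rw [min_eq_right h, Real.one_rpow]
      have h3 : p S ^ e ≤ p S := by
        have := Real.rpow_le_rpow_of_exponent_le h he1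
        simpa using this
      have h4 : p S ≤ Real.exp (p S - 1) := by
        have := Real.add_one_le_exp (p S - 1)
        linarith
      rw [Real.exp_neg, ← div_eq_mul_inv, div_le_one (Real.exp_pos _)]
      exact h3.trans h4
  unfold val
  have h5 := Real.rpow_nonneg (hq S) (1 - e)
  have h6 := Real.rpow_nonneg (hp S) e
  have h7 : Real.exp (-lev rel p S) ≤
      Real.exp (-(p S - min (p S) 1)) * Real.exp (-lev rel (fun T => min (p T) 1) S) := by
    rw [← Real.exp_add]
    exact Real.exp_le_exp.2 (by linarith)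
  calc q S ^ (1 - e) * p S ^ e * Real.exp (-lev rel p S)
      ≤ q S ^ (1 - e) * p S ^ e * (Real.exp (-(p S - min (p S) 1)) *
          Real.exp (-lev rel (fun T => min (p T) 1) S)) := by gcongr
    _ = q S ^ (1 - e) * (p S ^ e * Real.exp (-(p S - min (p S) 1))) *
          Real.exp (-lev rel (fun T => min (p T) 1) S) := by ring
    _ ≤ _ := by gcongr

lemma exists_best {e : ℝ} (he : 0 < e) (he1 : e ≤ 1) (rel : I → I → Prop) (hr : ∀ s, rel s s)
    {q : I → ℝ} (hq : ∀ S, 0 ≤ q S) :
    ∃ p : I → ℝ, (∀ S, 0 ≤ p S) ∧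
      ∀ p' : I → ℝ, (∀ S, 0 ≤ p' S) → Psi e rel q p' ≤ Psi e rel q p := by
  have hK : IsCompact (Set.pi Set.univ fun _ : I => Set.Icc (0 : ℝ) 1) :=
    isCompact_univ_pi fun _ => isCompact_Icc
  have hne : (Set.pi Set.univ fun _ : I => Set.Icc (0 : ℝ) 1).Nonempty :=
    ⟨fun _ => 0, fun _ _ => ⟨le_rfl, zero_le_one⟩⟩
  obtain ⟨p, hp, hmax⟩ := hK.exists_isMaxOn hne (continuous_Psi he rel q).continuousOn
  refine ⟨p, fun S => (hp S (Set.mem_univ S)).1, fun p' hp' => ?_⟩
  have h1 : Psi e rel q p' ≤ Psi e rel q (fun T => min (p' T) 1) :=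
    sum_le_sum fun S _ => val_le_trunc he1 rel hr hq hp' S
  refine h1.trans (hmax ?_)
  intro T _
  exact ⟨le_min (hp' T) zero_le_one, min_le_right _ _⟩

open Classical in
lemma val_scale {e : ℝ} (rel : I → I → Prop) (q : I → ℝ) {p : I → ℝ} (hp : ∀ S, 0 ≤ p S)
    (S : I) (u : ℝ) (T : I) :
    val e rel q (Function.update p S (p S * Real.exp u)) T =
      val e rel q p T * Real.exp ((if T = S then e else 0) * u -
        (if rel T S then p S else 0) * (Real.exp u - 1)) := by
  have h1 : lev rel (Function.update p S (p S * Real.exp u)) T =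
      lev rel p T + (if rel T S then p S else 0) * (Real.exp u - 1) := by
    unfold lev
    have : ∀ U, (if rel T U then Function.update p S (p S * Real.exp u) U else 0) =
        (if rel T U then p U else 0) +
          if U = S then (if rel T S then p S else 0) * (Real.exp u - 1) else 0 := by
      intro U
      by_cases hU : U = S
      · subst hU
        by_cases h : rel T U <;> simp [h]
        ring
      · simp [hU]
    simp only [this, sum_add_distrib, sum_ite_eq', mem_univ, if_true]
  have h2 : (Function.update p S (p S * Real.exp u) T) ^ e =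
      p T ^ e * Real.exp ((if T = S then e else 0) * u) := by
    by_cases hT : T = S
    · subst hT
      rw [Function.update_self, Real.mul_rpow (hp T) (Real.exp_pos u).le, ← Real.exp_mul]
      simp [mul_comm]
    · simp [hT]
  unfold val
  rw [h1, h2, neg_add, Real.exp_add, sub_eq_add_neg ((if T = S then e else 0) * u), Real.exp_add]
  ring

theorem exists_opt {e : ℝ} (he : 0 < e) (he1 : e ≤ 1) (rel : I → I → Prop) (hr : ∀ s, rel s s)
    (hs : ∀ s t, rel s t → rel t s) {q : I → ℝ} (hq : ∀ S, 0 ≤ q S) :
    ∃ p : I → ℝ, Opt e rel q p := by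
  classical
  obtain ⟨p, hp, hmax⟩ := exists_best he he1 rel hr hq
  refine ⟨p, hp, fun S => ?_, hmax⟩
  set g : ℝ → ℝ := fun u => ∑ T, val e rel q p T * Real.exp ((if T = S then e else 0) * u -
    (if rel T S then p S else 0) * (Real.exp u - 1)) with hg
  have hgP : ∀ u, g u = Psi e rel q (Function.update p S (p S * Real.exp u)) := by
    intro u
    unfold Psi
    refine sum_congr rfl fun T _ => ?_
    rw [val_scale rel q hp S u T]
  have hloc : IsLocalMax g 0 := by
    refine Filter.Eventually.of_forall fun u => ?_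
    rw [hgP, hgP]
    simp only [Real.exp_zero, mul_one, Function.update_eq_self]
    refine hmax _ fun T => ?_
    by_cases hT : T = S
    · subst hT
      rw [Function.update_self]
      exact mul_nonneg (hp T) (Real.exp_pos u).le
    · rw [Function.update_of_ne hT]
      exact hp T
  have hder : HasDerivAt g (∑ T, val e rel q p T *
      ((if T = S then e else 0) - (if rel T S then p S else 0))) 0 := by
    refine HasDerivAt.fun_sum fun T _ => ?_
    have h1 : HasDerivAt (fun u : ℝ => (if T = S then e else 0) * u -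
        (if rel T S then p S else 0) * (Real.exp u - 1))
        ((if T = S then e else 0) - (if rel T S then p S else 0)) 0 := by
      have h2 := ((hasDerivAt_id (0 : ℝ)).const_mul (if T = S then e else 0)).fun_sub
        (((Real.hasDerivAt_exp 0).sub_const 1).const_mul (if rel T S then p S else 0))
      simpa only [id, mul_one, Real.exp_zero] using h2
    have h3 := (h1.exp).const_mul (val e rel q p T)
    simpa using h3
  have h0 := hloc.hasDerivAt_eq_zero hder
  simp only [mul_sub, sum_sub_distrib, mul_ite, mul_zero, sum_ite_eq', mem_univ, if_true] at h0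
  have h4 : p S * lev rel (val e rel q p) S =
      ∑ T, if rel T S then val e rel q p T * p S else 0 := by
    unfold lev
    rw [mul_sum]
    refine sum_congr rfl fun T _ => ?_
    by_cases h : rel S T
    · simp [h, hs S T h, mul_comm]
    · have h' : ¬ rel T S := fun h' => h (hs T S h')
      simp [h, h']
  rw [h4]
  linarith

/-- At an optimum `∑ v_S H_S = e Φ`. -/
lemma Opt.sum_val_lev {e : ℝ} {rel : I → I → Prop} (hs : ∀ s t, rel s t → rel t s)
    {q p : I → ℝ} (h : Opt e rel q p) :
    ∑ S, val e rel q p S * lev rel p S = e * Psi e rel q p := by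
  rw [sum_mul_lev rel hs]
  unfold Psi
  rw [mul_sum]
  exact sum_congr rfl fun S _ => (h.kkt S).symm

end Pool.Agent.MP_9e8696_an.H68
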